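import Pool.Agent.Helper28.ND.Spec

set_option autoImplicit false

open MeasureTheory Set Filter Topology
open scoped ENNReal NNReal

namespace Pool.Agent.Helper70.ND.LPB

open Pool.Agent.Helper28.ND

/-- the projection as a linear map -/
noncomputable def prjL {d : ℕ} (hd : 2 ≤ d) : (Fin d → ℝ) →L[ℝ] ℂ :=
  (ContinuousLinearMap.proj (R := ℝ) (φ := fun _ : Fin d => ℝ) (i0 hd)).smulRight (1 : ℂ) +
    (ContinuousLinearMap.proj (R := ℝ) (φ := fun _ : Fin d => ℝ) (i1 hd)).smulRight Complex.I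

theorem prj_eq {d : ℕ} (hd : 2 ≤ d) (x : Fin d → ℝ) : prj hd x = prjL hd x := by
  apply Complex.ext <;> simp [prj, prjL, i0, i1]

theorem prj_eq' {d : ℕ} (hd : 2 ≤ d) : prj hd = prjL hd := funext (prj_eq hd)

theorem norm_prj_single {d : ℕ} (hd : 2 ≤ d) (i : Fin d) : ‖prjL hd (Pi.single i 1)‖ ≤ 1 := by
  have h01 : i0 hd ≠ i1 hd := by simp [i0, i1]
  by_cases h0 : i = i0 hd
  · subst h0
    simp [prjL, h01.symm]
  · by_cases h1 : i = i1 hd
    · subst h1
      simp [prjL, h01]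
    · have h0' : i0 hd ≠ i := fun h => h0 h.symm
      have h1' : i1 hd ≠ i := fun h => h1 h.symm
      simp [prjL, h0', h1']

theorem pd_bound {a : ℝ} {Y : ℂ → ℝ} {C : ℝ} (hC : 0 < C)
    (hs : ∀ z : ℂ, z ≠ 0 → ContDiffAt ℝ (⊤ : ℕ∞) Y z)
    (hb : ∀ z : ℂ, z ≠ 0 → ‖fderiv ℝ Y z‖ ≤ C * (‖z‖⁻¹ + ‖z‖ ^ (2 * a - 1)))
    (hw : ∀ z, z ∉ Bad → AnalyticAt ℂ wp z) {d : ℕ} (hd : 2 ≤ d) (i : Fin d) (x : Fin d → ℝ)
    (hx : prj hd x ∉ Bad) :
    |pd i (cp hd Y) x| ≤ C * (‖deriv wp (prj hd x)‖ *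
      (‖wp (prj hd x)‖⁻¹ + ‖wp (prj hd x)‖ ^ (2 * a - 1))) := by
  have hz : wp (prj hd x) ≠ 0 := hx
  have h1 : HasFDerivAt Y (fderiv ℝ Y (wp (prj hd x))) (wp (prj hd x)) :=
    ((hs _ hz).differentiableAt (by norm_num)).hasFDerivAt
  have h2 : HasDerivAt wp (deriv wp (prj hd x)) (prj hd x) :=
    (hw _ hx).differentiableAt.hasDerivAt
  have h3 := h2.hasFDerivAt.restrictScalars ℝ
  have h4 : HasFDerivAt (prj hd) (prjL hd) x := by
    rw [prj_eq']
    exact (prjL hd).hasFDerivAt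
  have h5 := h1.comp x (h3.comp x h4)
  have h6 : fderiv ℝ (cp hd Y) x = _ := HasFDerivAt.fderiv h5
  unfold pd
  rw [h6]
  have h7 := norm_prj_single hd i
  rw [← Real.norm_eq_abs]
  rw [ContinuousLinearMap.comp_apply]
  refine (ContinuousLinearMap.le_opNorm _ _).trans ?_
  rw [ContinuousLinearMap.comp_apply]
  have h8 : ‖(ContinuousLinearMap.restrictScalars ℝ
      (ContinuousLinearMap.toSpanSingleton ℂ (deriv wp (prj hd x))))
      (prjL hd (Pi.single i 1))‖ ≤ ‖deriv wp (prj hd x)‖ := by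
    rw [ContinuousLinearMap.coe_restrictScalars', ContinuousLinearMap.toSpanSingleton_apply,
      norm_smul]
    calc ‖prjL hd (Pi.single i 1)‖ * ‖deriv wp (prj hd x)‖ ≤ 1 * ‖deriv wp (prj hd x)‖ := by
          gcongr
      _ = _ := one_mul _
  calc _ ≤ (C * (‖wp (prj hd x)‖⁻¹ + ‖wp (prj hd x)‖ ^ (2 * a - 1))) *
        ‖deriv wp (prj hd x)‖ := by
        refine mul_le_mul (hb _ hz) h8 (norm_nonneg _) ?_
        positivity
    _ = _ := by ring

theorem ae_bad (h2 : S_WPF) (h4 : S_PRJ) {d : ℕ} (hd : 2 ≤ d) :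
    ∀ᵐ x ∂(volume.restrict (Q d)), prj hd x ∉ Bad := by
  obtain ⟨-, -, -, hcount, -, -, -⟩ := h2
  have hm : MeasurableSet Bad := hcount.measurableSet
  have h1 := h4 d hd (Bad.indicator 1) (measurable_one.indicator hm)
  have h3 : ∫⁻ z in Sq, (Bad.indicator (1 : ℂ → ℝ≥0∞)) z = 0 := by
    rw [lintegral_indicator hm]
    have : (volume.restrict Sq) Bad = 0 :=
      le_antisymm ((Measure.restrict_apply_le _ _).trans (hcount.measure_zero _).le) bot_le
    rw [Measure.restrict_eq_zero.2 this]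
    simp
  rw [h3] at h1
  have hmp : Measurable (prj hd) := by
    rw [prj_eq']
    exact (prjL hd).continuous.measurable
  have hm2 : Measurable fun x => (Bad.indicator (1 : ℂ → ℝ≥0∞)) (prj hd x) :=
    (measurable_one.indicator hm).comp hmp
  rw [lintegral_eq_zero_iff hm2] at h1
  filter_upwards [h1] with x hx hbad
  simp [hbad] at hx

theorem main (h2 : S_WPF) (h3 : S_WPI) (h4 : S_PRJ) : S_LPB := by
  intro a ha ha4 Y hY d hd s hs1 hs2 i
  obtain ⟨C, hC, -, hb⟩ := hY.bd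
  have hbad := ae_bad h2 h4 hd
  obtain ⟨-, -, -, hcount, hw, hwm, -⟩ := h2
  have hs0 : 0 < s := by linarith
  have hmeas : Measurable (pd i (cp hd Y)) := by
    unfold pd
    exact measurable_fderiv_apply_const ℝ _ _
  refine ⟨hmeas.aestronglyMeasurable, ?_⟩
  have hs' : ENNReal.ofReal s ≠ 0 := by
    rw [Ne, ENNReal.ofReal_eq_zero, not_le]; exact hs0
  rw [eLpNorm_lt_top_iff_lintegral_rpow_enorm_lt_top hs' ENNReal.ofReal_ne_top,
    ENNReal.toReal_ofReal hs0.le]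
  set w : ℂ → ℝ := fun z => ‖deriv wp z‖ * (‖wp z‖⁻¹ + ‖wp z‖ ^ (2 * a - 1)) with hwd
  have hw0 : ∀ z, 0 ≤ w z := fun z => by positivity
  have hwmeas : Measurable fun z => ENNReal.ofReal (w z ^ s) := by
    refine ENNReal.measurable_ofReal.comp ?_
    refine Measurable.pow_const ?_ s
    refine (measurable_deriv _).norm.mul ?_
    exact hwm.norm.inv.add (hwm.norm.pow_const _)
  have h5 : ∫⁻ x in Q d, ‖pd i (cp hd Y) x‖ₑ ^ s ≤
      ∫⁻ x in Q d, ENNReal.ofReal (C ^ s) * ENNReal.ofReal (w (prj hd x) ^ s) := by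
    refine lintegral_mono_ae ?_
    filter_upwards [hbad] with x hx
    have h6 := pd_bound hC hY.smooth hb hw hd i x hx
    rw [← ENNReal.ofReal_mul (by positivity), ← Real.mul_rpow hC.le (hw0 _),
      ← ENNReal.ofReal_rpow_of_nonneg (by have := hw0 (prj hd x); positivity) hs0.le]
    refine ENNReal.rpow_le_rpow ?_ hs0.le
    rw [Real.enorm_eq_ofReal_abs]
    exact ENNReal.ofReal_le_ofReal h6
  refine lt_of_le_of_lt h5 ?_
  rw [lintegral_const_mul' _ _ ENNReal.ofReal_ne_top, h4 d hd _ hwmeas]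
  exact ENNReal.mul_lt_top ENNReal.ofReal_lt_top (h3 a s ha hs1 hs2).1

end Pool.Agent.Helper70.ND.LPB
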