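import Pool.Agent.Helper70.ND.FREG

set_option autoImplicit false

open MeasureTheory Set Filter Topology
open scoped ENNReal NNReal Convolution

namespace Pool.Agent.Helper70.ND.FTEST

open Pool.Agent.Helper28.ND Pool.Agent.Helper86.ND Pool.Agent.Helper70.ND.FREG

noncomputable section

variable {d : ℕ}

lemma Q_subset (d : ℕ) : Q d ⊆ Icc (0 : Fin d → ℝ) 1 := by
  intro x hx
  exact ⟨fun i => (hx i (Set.mem_univ i)).1.le, fun i => (hx i (Set.mem_univ i)).2⟩

lemma measQ (d : ℕ) : MeasurableSet (Q d) :=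
  MeasurableSet.univ_pi fun _ => measurableSet_Ioc

lemma int_prod {F : ℝ × (Fin d → ℝ) → ℝ} (hF : Continuous F) (a b : ℝ) :
    Integrable F ((volume.restrict (Ioc a b)).prod (volume.restrict (Q d))) := by
  rw [Measure.prod_restrict]
  have h : IntegrableOn F (Icc a b ×ˢ Icc (0 : Fin d → ℝ) 1) (volume.prod volume) :=
    hF.continuousOn.integrableOn_compact (isCompact_Icc.prod isCompact_Icc)
  exact h.mono_set (prod_mono Ioc_subset_Icc_self (Q_subset d))

lemma int_Q {F : (Fin d → ℝ) → ℝ} (hF : Continuous F) : IntegrableOn F (Q d) :=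
  (hF.continuousOn.integrableOn_compact isCompact_Icc).mono_set (Q_subset d)

instance finQ (d : ℕ) : IsFiniteMeasure (volume.restrict (Q d)) := by
  constructor
  rw [Measure.restrict_apply_univ]
  exact (measure_mono (Q_subset d)).trans_lt isCompact_Icc.measure_lt_top

section slices

variable {H : ℝ → (Fin d → ℝ) → ℝ}

lemma fds (hH : Differentiable ℝ (U H)) (t : ℝ) (x : Fin d → ℝ) :
    HasFDerivAt (H t) ((fderiv ℝ (U H) (t, x)).comp (ContinuousLinearMap.inr ℝ ℝ (Fin d → ℝ))) x := by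
  have h1 : HasFDerivAt (U H) (fderiv ℝ (U H) (t, x)) (t, x) := (hH (t, x)).hasFDerivAt
  have h2 : HasFDerivAt (fun y : Fin d → ℝ => (t, y)) (ContinuousLinearMap.inr ℝ ℝ (Fin d → ℝ)) x :=
    hasFDerivAt_prodMk_right t x
  exact h1.comp x h2

lemma pds (hH : Differentiable ℝ (U H)) (i : Fin d) (t : ℝ) (x : Fin d → ℝ) :
    pd i (H t) x = fderiv ℝ (U H) (t, x) (0, Pi.single i 1) := by
  unfold pd
  rw [(fds hH t x).fderiv]
  simp

lemma dts (hH : Differentiable ℝ (U H)) (t : ℝ) (x : Fin d → ℝ) :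
    HasDerivAt (fun s => H s x) (fderiv ℝ (U H) (t, x) (1, 0)) t := by
  have h1 : HasFDerivAt (U H) (fderiv ℝ (U H) (t, x)) (t, x) := (hH (t, x)).hasFDerivAt
  have h2 : HasDerivAt (fun s : ℝ => (s, x)) ((1 : ℝ), (0 : Fin d → ℝ)) t :=
    (hasDerivAt_id t).prodMk (hasDerivAt_const t x)
  exact h1.comp_hasDerivAt t h2

lemma cdt (hH : ContDiff ℝ 1 (U H)) : Continuous (U (dt H)) := by
  have h1 : U (dt H) = fun z => fderiv ℝ (U H) z (1, 0) := by
    ext z
    exact (dts (hH.differentiable (by norm_num)) z.1 z.2).deriv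
  rw [h1]
  exact (hH.continuous_fderiv (by norm_num)).clm_apply continuous_const

lemma cpd0 (hH : ContDiff ℝ 1 (U H)) (i : Fin d) : Continuous (U fun t => pd i (H t)) := by
  have h1 : (U fun t => pd i (H t)) = fun z => fderiv ℝ (U H) z (0, Pi.single i 1) := by
    ext z
    exact pds (hH.differentiable (by norm_num)) i z.1 z.2
  rw [h1]
  exact (hH.continuous_fderiv (by norm_num)).clm_apply continuous_const

lemma cpd1 (hH : ContDiff ℝ 2 (U H)) (i : Fin d) : ContDiff ℝ 1 (U fun t => pd i (H t)) := by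
  have h1 : (U fun t => pd i (H t)) = fun z => fderiv ℝ (U H) z (0, Pi.single i 1) := by
    ext z
    exact pds (hH.differentiable (by norm_num)) i z.1 z.2
  rw [h1]
  exact (hH.fderiv_right (m := 1) (by norm_num)).clm_apply contDiff_const

lemma clap (hH : ContDiff ℝ 2 (U H)) : Continuous (U fun t => lap (H t)) := by
  have h1 : (U fun t => lap (H t)) = fun z => ∑ i, (U fun t => pd i (pd i (H t))) z := by
    ext z
    rfl
  rw [h1]
  exact continuous_finsetSum _ fun i _ => cpd0 (H := fun t => pd i (H t)) (cpd1 hH i) i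

lemma sl {n : WithTop ℕ∞} (hH : ContDiff ℝ n (U H)) (t : ℝ) : ContDiff ℝ n (H t) := by
  have : H t = U H ∘ fun x => (t, x) := rfl
  rw [this]
  exact hH.comp (contDiff_const.prodMk contDiff_id)

end slices

lemma per_pd {h : (Fin d → ℝ) → ℝ} (hh : Per h) (i : Fin d) : Per (pd i h) := by
  intro x k
  have e : h = fun y => h (y + fun j => (k j : ℝ)) := by
    ext y
    exact (hh y k).symm
  have h2 : fderiv ℝ (fun y => h (y + fun j => (k j : ℝ))) x =
      fderiv ℝ h (x + fun j => (k j : ℝ)) := fderiv_comp_add_right _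
  unfold pd
  rw [← e] at h2
  rw [h2]
  rfl

lemma pd_mul {p g : (Fin d → ℝ) → ℝ} (hp : Differentiable ℝ p) (hg : Differentiable ℝ g)
    (i : Fin d) (x : Fin d → ℝ) :
    pd i (fun x => p x * g x) x = p x * pd i g x + pd i p x * g x := by
  unfold pd
  have h := (hp x).hasFDerivAt.mul (hg x).hasFDerivAt
  have h2 : fderiv ℝ (fun x => p x * g x) x = _ := h.fderiv
  rw [h2]
  simp
  ring

lemma pd_sub {p g : (Fin d → ℝ) → ℝ} (hp : Differentiable ℝ p) (hg : Differentiable ℝ g)
    (i : Fin d) (x : Fin d → ℝ) :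
    pd i (fun x => p x - g x) x = pd i p x - pd i g x := by
  unfold pd
  have h := (hp x).hasFDerivAt.sub (hg x).hasFDerivAt
  have h2 : fderiv ℝ (fun x => p x - g x) x = _ := h.fderiv
  rw [h2]
  simp

/-- symmetry of the Laplacian -/
lemma green (hI : S_IBP) {p g : (Fin d → ℝ) → ℝ} (hp : ContDiff ℝ 2 p) (hg : ContDiff ℝ 2 g)
    (pp : Per p) (pg : Per g) :
    ∫ x in Q d, lap p x * g x = ∫ x in Q d, p x * lap g x := by
  have d1 : ∀ {q : (Fin d → ℝ) → ℝ}, ContDiff ℝ 2 q → ∀ i, ContDiff ℝ 1 (pd i q) := by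
    intro q hq i
    unfold pd
    exact (hq.fderiv_right (m := 1) (by norm_num)).clm_apply contDiff_const
  have d0 : ∀ {q : (Fin d → ℝ) → ℝ}, ContDiff ℝ 1 q → ∀ i, Continuous (pd i q) := by
    intro q hq i
    unfold pd
    exact (hq.continuous_fderiv (by norm_num)).clm_apply continuous_const
  have key : ∀ i, ∫ x in Q d, (pd i (pd i p) x * g x - p x * pd i (pd i g) x) = 0 := by
    intro i
    have e := hI d (fun x => pd i p x * g x - p x * pd i g x)
      (((d1 hp i).mul (hg.of_le (by norm_num))).sub ((hp.of_le (by norm_num)).mul (d1 hg i))) ?_ i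
    · rw [← e]
      refine integral_congr_ae (Eventually.of_forall fun x => ?_)
      simp only
      have dp := hp.differentiable (by norm_num)
      have dg := hg.differentiable (by norm_num)
      have dpi := (d1 hp i).differentiable (by norm_num)
      have dgi := (d1 hg i).differentiable (by norm_num)
      have e1 := pd_sub (p := fun x => pd i p x * g x) (g := fun x => p x * pd i g x)
        (dpi.mul dg) (dp.mul dgi) i x
      rw [e1, pd_mul dpi dg, pd_mul dp dgi]
      ring
    · intro x k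
      simp only
      rw [per_pd pp i x k, per_pd pg i x k, pp x k, pg x k]
  have c1 : ∀ i, IntegrableOn (fun x => pd i (pd i p) x * g x) (Q d) := fun i =>
    int_Q ((d0 (d1 hp i) i).mul hg.continuous)
  have c2 : ∀ i, IntegrableOn (fun x => p x * pd i (pd i g) x) (Q d) := fun i =>
    int_Q (hp.continuous.mul (d0 (d1 hg i) i))
  have e1 : ∫ x in Q d, lap p x * g x = ∑ i, ∫ x in Q d, pd i (pd i p) x * g x := by
    rw [← integral_finsetSum _ fun i _ => c1 i]
    refine integral_congr_ae (Eventually.of_forall fun x => ?_)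
    simp only [lap, Finset.sum_mul]
  have e2 : ∫ x in Q d, p x * lap g x = ∑ i, ∫ x in Q d, p x * pd i (pd i g) x := by
    rw [← integral_finsetSum _ fun i _ => c2 i]
    refine integral_congr_ae (Eventually.of_forall fun x => ?_)
    simp only [lap, Finset.mul_sum]
  rw [e1, e2]
  refine Finset.sum_congr rfl fun i _ => ?_
  have := key i
  rw [integral_sub (c1 i) (c2 i)] at this
  linarith

/-- the time derivative -/
lemma time {P G : ℝ → (Fin d → ℝ) → ℝ} (hP : ContDiff ℝ 1 (U P)) (hG : ContDiff ℝ 1 (U G))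
    {s1 s2 : ℝ} (h12 : s1 ≤ s2) :
    (∫ x in Q d, P s2 x * G s2 x) - ∫ x in Q d, P s1 x * G s1 x =
      ∫ s in Ioc s1 s2, ∫ x in Q d, (dt P s x * G s x + P s x * dt G s x) := by
  set h : ℝ × (Fin d → ℝ) → ℝ := fun z => U (dt P) z * U G z + U P z * U (dt G) z with hh
  have ch : Continuous h := ((cdt hP).mul hG.continuous).add (hP.continuous.mul (cdt hG))
  have hx : ∀ x, P s2 x * G s2 x - P s1 x * G s1 x = ∫ t in Ioc s1 s2, h (t, x) := by
    intro x
    rw [← intervalIntegral.integral_of_le h12]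
    have h3 : ∀ t, HasDerivAt (fun t => P t x * G t x) (h (t, x)) t := by
      intro t
      have e1 := dts (hP.differentiable (by norm_num)) t x
      have e2 := dts (hG.differentiable (by norm_num)) t x
      have e3 : dt P t x = _ := e1.deriv
      have e4 : dt G t x = _ := e2.deriv
      have e5 := e1.mul e2
      rw [← e3, ← e4] at e5
      exact e5
    refine (intervalIntegral.integral_eq_sub_of_hasDerivAt (fun t _ => h3 t) ?_).symm
    exact (ch.comp (by fun_prop : Continuous fun t : ℝ => (t, x))).intervalIntegrable _ _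
  have c1 : ∀ t, Continuous fun x => P t x * G t x := fun t =>
    (sl hP t).continuous.mul (sl hG t).continuous
  rw [← integral_sub (int_Q (c1 s2)) (int_Q (c1 s1))]
  simp_rw [hx]
  exact (integral_integral_swap (f := fun t x => h (t, x)) (int_prod ch s1 s2)).symm

section rev

variable {T : ℝ} {b : ℝ → (Fin d → ℝ) → (Fin d → ℝ)} {f : ℝ → (Fin d → ℝ) → ℝ}
  {u : ℝ → (Fin d → ℝ) → ℝ} {v : ℝ → (Fin d → ℝ) → (Fin d → ℝ)}

/-- the approximating integrand -/
def JJ (b : ℝ → (Fin d → ℝ) → (Fin d → ℝ)) (T : ℝ) (G P F : ℝ → (Fin d → ℝ) → ℝ)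
    (V : Fin d → ℝ → (Fin d → ℝ) → ℝ) (z : ℝ × (Fin d → ℝ)) : ℝ :=
  U P z * (U (dt G) z - U (fun t => lap (G t)) z
      - ∑ i, U b (1 + T - z.1, z.2) i * U (fun t => pd i (G t)) z)
    - U F z * U G z - ∑ i, U b (1 + T - z.1, z.2) i * (U (V i) z * U G z)

theorem slice_n (hI : S_IBP) (h : FSol d T b f u v) {G : ℝ → (Fin d → ℝ) → ℝ}
    (hG : ContDiff ℝ 2 (U G)) (pG : ∀ t, Per (G t)) {P F : ℝ → (Fin d → ℝ) → ℝ}
    {V : Fin d → ℝ → (Fin d → ℝ) → ℝ} (hP : SmoothPer P) (hF : Continuous (U F)) (s : ℝ)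
    (hs : ∀ x, dt P s x + lap (P s) x = - F s x) (hV : ∀ i x, pd i (P s) x = V i s x) :
    ∫ x in Q d, (dt P s x * G s x + P s x * dt G s x) = ∫ x in Q d, JJ b T G P F V (s, x) := by
  obtain ⟨B, hB⟩ := h.dat.bdd
  have hGs : ContDiff ℝ 2 (G s) := sl hG s
  have hP2 : ContDiff ℝ 2 (U P) := by
    have := contDiff_infty.1 hP.smooth 2
    exact_mod_cast this
  have hP1 : ContDiff ℝ 1 (U P) := hP2.of_le (by norm_num)
  have hPs : ContDiff ℝ 2 (P s) := sl hP2 s
  have cdtP : Continuous fun x => dt P s x :=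
    (cdt hP1).comp (by fun_prop : Continuous fun x : Fin d → ℝ => (s, x))
  have cdtG : Continuous fun x => dt G s x :=
    (cdt (hG.of_le (by norm_num))).comp (by fun_prop : Continuous fun x : Fin d → ℝ => (s, x))
  have clapG : Continuous fun x => lap (G s) x :=
    (clap hG).comp (by fun_prop : Continuous fun x : Fin d → ℝ => (s, x))
  have clapP : Continuous fun x => lap (P s) x :=
    (clap hP2).comp (by fun_prop : Continuous fun x : Fin d → ℝ => (s, x))
  have cF : Continuous fun x => F s x :=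
    hF.comp (by fun_prop : Continuous fun x : Fin d → ℝ => (s, x))
  have cpdPG : ∀ i, Continuous (pd i fun x => P s x * G s x) := by
    intro i
    unfold pd
    exact ((hPs.mul hGs).continuous_fderiv (by norm_num)).clm_apply continuous_const
  -- the drift
  have h0 := h.dat.db (1 + T - s) (fun x => P s x * G s x)
    ((hPs.mul hGs).of_le (by norm_num)) (by
      intro x k
      simp only
      rw [hP.per s x k, pG s x k])
  have hbi : ∀ i, IntegrableOn (fun x => b (1 + T - s) x i * pd i (fun x => P s x * G s x) x)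
      (Q d) := by
    intro i
    have hm : AEStronglyMeasurable (fun x => b (1 + T - s) x i) (volume.restrict (Q d)) := by
      have h1 : Measurable (fun x : Fin d → ℝ => U b (1 + T - s, x)) :=
        h.dat.mb.comp (by fun_prop)
      exact ((measurable_pi_apply i).comp h1).aestronglyMeasurable
    have h2 := (int_Q (cpdPG i)).mul_bdd (c := B) hm
      (Eventually.of_forall fun x => (hB _ _).2 i)
    refine h2.congr (Eventually.of_forall fun x => ?_)
    simp only [mul_comm]
  have hbs : IntegrableOn (fun x => ∑ i, b (1 + T - s) x i * pd i (fun x => P s x * G s x) x)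
      (Q d) := integrable_finsetSum _ fun i _ => hbi i
  -- the Laplacian
  have hL := green hI hPs hGs (hP.per s) (pG s)
  have i1 : IntegrableOn (fun x => P s x * dt G s x) (Q d) := int_Q (hPs.continuous.mul cdtG)
  have i2 : IntegrableOn (fun x => P s x * lap (G s) x) (Q d) := int_Q (hPs.continuous.mul clapG)
  have i3 : IntegrableOn (fun x => F s x * G s x) (Q d) := int_Q (cF.mul hGs.continuous)
  have i4 : IntegrableOn (fun x => lap (P s) x * G s x) (Q d) := int_Q (clapP.mul hGs.continuous)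
  have e1 : ∫ x in Q d, (dt P s x * G s x + P s x * dt G s x) =
      (∫ x in Q d, P s x * dt G s x) - (∫ x in Q d, P s x * lap (G s) x)
        - ∫ x in Q d, F s x * G s x := by
    have i14 : IntegrableOn (fun x => P s x * dt G s x - lap (P s) x * G s x) (Q d) := i1.sub i4
    rw [← hL, ← integral_sub i1 i4, ← integral_sub i14 i3]
    refine integral_congr_ae (Eventually.of_forall fun x => ?_)
    simp only
    have := hs x
    have e : dt P s x = - F s x - lap (P s) x := by linarith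
    rw [e]
    ring
  have e2 : ∫ x in Q d, JJ b T G P F V (s, x) =
      ((∫ x in Q d, P s x * dt G s x) - (∫ x in Q d, P s x * lap (G s) x)
        - ∫ x in Q d, F s x * G s x)
        - ∫ x in Q d, ∑ i, b (1 + T - s) x i * pd i (fun x => P s x * G s x) x := by
    have i12 : IntegrableOn (fun x => P s x * dt G s x - P s x * lap (G s) x) (Q d) := i1.sub i2
    have i123 : IntegrableOn (fun x => P s x * dt G s x - P s x * lap (G s) x - F s x * G s x)
      (Q d) := i12.sub i3
    rw [← integral_sub i1 i2, ← integral_sub i12 i3, ← integral_sub i123 hbs]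
    refine integral_congr_ae (Eventually.of_forall fun x => ?_)
    simp only [JJ, U]
    have dP : Differentiable ℝ (P s) := hPs.differentiable (by norm_num)
    have dG : Differentiable ℝ (G s) := hGs.differentiable (by norm_num)
    have e3 : ∀ i, pd i (fun x => P s x * G s x) x = P s x * pd i (G s) x + V i s x * G s x := by
      intro i
      rw [pd_mul dP dG, hV]
    simp only [e3, mul_add, Finset.sum_add_distrib, mul_sub, Finset.mul_sum]
    have e4 : ∀ i, P s x * (b (1 + T - s) x i * pd i (G s) x) =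
        b (1 + T - s) x i * (P s x * pd i (G s) x) := fun i => by ring
    simp only [e4]
    ring
  rw [e1, e2, h0, sub_zero]

theorem exists_bd {F : ℝ × (Fin d → ℝ) → ℝ} (hF : Continuous F) (a b : ℝ) :
    ∃ M : ℝ, 0 ≤ M ∧ ∀ z : ℝ × (Fin d → ℝ), z.1 ∈ Ioc a b → z.2 ∈ Q d → |F z| ≤ M := by
  obtain ⟨M, hM⟩ := (isCompact_Icc.prod isCompact_Icc :
    IsCompact (Icc a b ×ˢ Icc (0 : Fin d → ℝ) 1)).exists_bound_of_continuousOn hF.continuousOn
  refine ⟨|M|, abs_nonneg _, fun z h1 h2 => ?_⟩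
  exact (hM z ⟨Ioc_subset_Icc_self h1, Q_subset d h2⟩).trans (le_abs_self M)

theorem rev (hI : S_IBP) (hS : S_STEIN) (hG' : S_MOLG) (hM : S_MOLD) (hW : S_WEQ) (hT : 0 < T)
    (h : FSol d T b f u v) {G : ℝ → (Fin d → ℝ) → ℝ}
    (hG : ContDiff ℝ 2 (U G)) (pG : ∀ t, Per (G t)) {s1 s2 : ℝ} (h1 : 1 ≤ s1) (h12 : s1 ≤ s2) :
    (∫ x in Q d, Phi (1 + T) (RF T b f v) s2 x * G s2 x)
      - ∫ x in Q d, Phi (1 + T) (RF T b f v) s1 x * G s1 x =
    ∫ s in Ioc s1 s2, ∫ x in Q d, (Phi (1 + T) (RF T b f v) s x * (dt G s x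
      - lap (G s) x - ∑ i, b (1 + T - s) x i * pd i (G s) x) - f (1 + T - s) x * G s x) := by
  set F := RF T b f v with hFd
  set S : ℝ := 1 + T with hSd
  have hS0 : 0 < S := by rw [hSd]; linarith
  have hF : BMP F := rf_bmp h
  have hsrc : Src S F := ⟨hF.meas, hF.per, hF.bdd, fun t ht x => rf_zero h (by
    rcases ht with h | h
    · left; linarith
    · right; exact h) x⟩
  have hPh : BMP (Phi S F) := KB.bmp_Phi S F hF
  have hVe : ∀ i, BMP (Vel S F i) := fun i => KB.bmp_Vel S F hF i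
  have cPh : Continuous (U (Phi S F)) := cont_Phi S F hF
  obtain ⟨B, hB⟩ := h.dat.bdd
  obtain ⟨B1, hB1⟩ := hPh.bdd
  obtain ⟨B2, hB2⟩ := hF.bdd
  have hex : ∀ i, ∃ C : ℝ, 0 ≤ C ∧ ∀ t x, |Vel S F i t x| ≤ C := by
    intro i
    obtain ⟨C, hC⟩ := (hVe i).bdd
    exact ⟨C, (abs_nonneg _).trans (hC 0 0), hC⟩
  choose B3 hB30 hB3 using hex
  have hG1 : ContDiff ℝ 1 (U G) := hG.of_le (by norm_num)
  obtain ⟨M1, hM10, hM1⟩ := exists_bd (cdt hG1) s1 s2
  obtain ⟨M2, hM20, hM2⟩ := exists_bd (clap hG) s1 s2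
  obtain ⟨M3, hM30, hM3⟩ := exists_bd hG.continuous s1 s2
  have hex2 : ∀ i, ∃ C : ℝ, 0 ≤ C ∧ ∀ z : ℝ × (Fin d → ℝ), z.1 ∈ Ioc s1 s2 → z.2 ∈ Q d →
    |U (fun t => pd i (G t)) z| ≤ C := fun i => exists_bd (cpd0 hG1 i) s1 s2
  choose M4 hM40 hM4 using hex2
  have hB0 : 0 ≤ B := (abs_nonneg _).trans (hB 0 0).1
  have hB10 : 0 ≤ B1 := (abs_nonneg _).trans (hB1 0 0)
  have hB20 : 0 ≤ B2 := (abs_nonneg _).trans (hB2 0 0)
  set μ : Measure (ℝ × (Fin d → ℝ)) := (volume.restrict (Ioc s1 s2)).prod (volume.restrict (Q d))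
    with hμ
  have hfin1 : IsFiniteMeasure (volume.restrict (Ioc s1 s2)) := ⟨by simp⟩
  have hμr : μ = volume.restrict (Ioc s1 s2 ×ˢ Q d) := by
    rw [hμ, Measure.prod_restrict]
    rfl
  have hmem : ∀ᵐ z ∂μ, z.1 ∈ Ioc s1 s2 ∧ z.2 ∈ Q d := by
    rw [hμr]
    filter_upwards [ae_restrict_mem (measurableSet_Ioc.prod (measQ d))] with z hz
    exact hz
  have hn1 : ∀ n : ℕ, ∀ s, 1 ≤ s → 1 / (4 * ((n : ℝ) + 1)) < s := by
    intro n s hs
    refine lt_of_lt_of_le ?_ hs
    rw [div_lt_one (by positivity)]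
    have : (0 : ℝ) ≤ n := Nat.cast_nonneg n
    linarith
  -- the integrands
  set J : ℝ × (Fin d → ℝ) → ℝ := JJ b T G (Phi S F) F (fun i => Vel S F i) with hJ
  set Jn : ℕ → ℝ × (Fin d → ℝ) → ℝ :=
    fun n => JJ b T G (mol n (Phi S F)) (mol n F) (fun i => mol n (Vel S F i)) with hJn
  have hbm : ∀ i, Measurable fun z : ℝ × (Fin d → ℝ) => U b (1 + T - z.1, z.2) i := by
    intro i
    have hr : Measurable (fun z : ℝ × (Fin d → ℝ) => ((1 + T - z.1, z.2) : ℝ × (Fin d → ℝ))) := by
      fun_prop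
    exact (measurable_pi_apply i).comp (h.dat.mb.comp hr)
  have hmeas : ∀ (P F : ℝ → (Fin d → ℝ) → ℝ) (V : Fin d → ℝ → (Fin d → ℝ) → ℝ),
      Measurable (U P) → Measurable (U F) → (∀ i, Measurable (U (V i))) →
      Measurable (JJ b T G P F V) := by
    intro P F V hP hF hV
    unfold JJ
    refine ((hP.mul (((cdt hG1).measurable.sub (clap hG).measurable).sub
      (Finset.measurable_fun_sum _ fun i _ => (hbm i).mul (cpd0 hG1 i).measurable))).sub
      (hF.mul hG.continuous.measurable)).sub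
      (Finset.measurable_fun_sum _ fun i _ => (hbm i).mul ((hV i).mul hG.continuous.measurable))
  set K : ℝ := B1 * (M1 + M2 + ∑ i, B * M4 i) + B2 * M3 + ∑ i, B * (B3 i * M3) with hK
  have hbound : ∀ (P F : ℝ → (Fin d → ℝ) → ℝ) (V : Fin d → ℝ → (Fin d → ℝ) → ℝ)
      (z : ℝ × (Fin d → ℝ)), z.1 ∈ Ioc s1 s2 → z.2 ∈ Q d → |U P z| ≤ B1 → |U F z| ≤ B2 →
      (∀ i, |U (V i) z| ≤ B3 i) → |JJ b T G P F V z| ≤ K := by
    intro P F V z hz1 hz2 hP hF hV
    unfold JJ
    refine (abs_sub _ _).trans (add_le_add ((abs_sub _ _).trans (add_le_add ?_ ?_)) ?_)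
    · rw [abs_mul]
      refine mul_le_mul hP ?_ (abs_nonneg _) hB10
      refine (abs_sub _ _).trans (add_le_add ((abs_sub _ _).trans
        (add_le_add (hM1 z hz1 hz2) (hM2 z hz1 hz2))) ?_)
      refine (Finset.abs_sum_le_sum_abs _ _).trans (Finset.sum_le_sum fun i _ => ?_)
      rw [abs_mul]
      exact mul_le_mul ((hB _ _).2 i) (hM4 i z hz1 hz2) (abs_nonneg _) hB0
    · rw [abs_mul]
      exact mul_le_mul hF (hM3 z hz1 hz2) (abs_nonneg _) hB20
    · refine (Finset.abs_sum_le_sum_abs _ _).trans (Finset.sum_le_sum fun i _ => ?_)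
      rw [abs_mul, abs_mul]
      exact mul_le_mul ((hB _ _).2 i) (mul_le_mul (hV i) (hM3 z hz1 hz2) (abs_nonneg _) (hB30 i))
        (by positivity) hB0
  have bP : ∀ n s x, 1 ≤ s → |mol n (Phi S F) s x| ≤ B1 := fun n s x hs =>
    (hG' d _ hPh).2.1 B1 (Eventually.of_forall fun w _ => hB1 _ _) n s x (hn1 n s hs)
  have bF : ∀ n s x, 1 ≤ s → |mol n F s x| ≤ B2 := fun n s x hs =>
    (hG' d _ hF).2.1 B2 (Eventually.of_forall fun w _ => hB2 _ _) n s x (hn1 n s hs)
  have bV : ∀ i n s x, 1 ≤ s → |mol n (Vel S F i) s x| ≤ B3 i := fun i n s x hs =>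
    (hG' d _ (hVe i)).2.1 (B3 i) (Eventually.of_forall fun w _ => hB3 i _ _) n s x (hn1 n s hs)
  have hsm : ∀ {D : ℝ → (Fin d → ℝ) → ℝ}, BMP D → ∀ n, SmoothPer (mol n D) :=
    fun hD n => (hG' d _ hD).1 n
  have mJn : ∀ n, Measurable (Jn n) := fun n =>
    hmeas _ _ _ (hsm hPh n).smooth.continuous.measurable (hsm hF n).smooth.continuous.measurable
      (fun i => (hsm (hVe i) n).smooth.continuous.measurable)
  have bJn : ∀ n, ∀ᵐ z ∂μ, ‖Jn n z‖ ≤ K := by
    intro n
    filter_upwards [hmem] with z hz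
    have hz1 : 1 ≤ z.1 := h1.trans hz.1.1.le
    exact hbound _ _ _ z hz.1 hz.2 (bP n _ _ hz1) (bF n _ _ hz1) (fun i => bV i n _ _ hz1)
  have iJn : ∀ n, Integrable (Jn n) μ := fun n =>
    Integrable.of_bound (mJn n).aestronglyMeasurable K (bJn n)
  have mJ : Measurable J := hmeas _ _ _ hPh.meas hF.meas (fun i => (hVe i).meas)
  have iJ : Integrable J μ := by
    refine Integrable.of_bound mJ.aestronglyMeasurable K ?_
    filter_upwards [hmem] with z hz
    exact hbound _ _ _ z hz.1 hz.2 (hB1 _ _) (hB2 _ _) (fun i => hB3 i _ _)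
  have hae : ∀ᵐ z ∂μ, Tendsto (fun n => Jn n z) atTop (𝓝 (J z)) := by
    have a1 : ∀ᵐ z ∂μ, Tendsto (fun n => U (mol n F) z) atTop (𝓝 (U F z)) := by
      rw [hμr]
      exact ae_restrict_of_ae (hG' d _ hF).2.2.1
    have a2 : ∀ᵐ z ∂μ, ∀ i, Tendsto (fun n => U (mol n (Vel S F i)) z) atTop
        (𝓝 (U (Vel S F i) z)) := by
      rw [ae_all_iff]
      intro i
      rw [hμr]
      exact ae_restrict_of_ae (hG' d _ (hVe i)).2.2.1
    filter_upwards [a1, a2] with z z1 z2
    have z0 : Tendsto (fun n => U (mol n (Phi S F)) z) atTop (𝓝 (U (Phi S F) z)) :=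
      mol_tendsto _ cPh z.1 z.2
    simp only [hJn, hJ, JJ]
    refine ((z0.mul_const _).sub (z1.mul_const _)).sub (tendsto_finsetSum _ fun i _ => ?_)
    exact ((z2 i).mul_const _).const_mul _
  have lim1 : Tendsto (fun n => ∫ z, Jn n z ∂μ) atTop (𝓝 (∫ z, J z ∂μ)) :=
    tendsto_integral_of_dominated_convergence (fun _ => K)
      (fun n => (mJn n).aestronglyMeasurable) (integrable_const K) bJn hae
  -- the boundary terms
  have lim2 : ∀ s, 1 ≤ s → Tendsto (fun n => ∫ x in Q d, mol n (Phi S F) s x * G s x) atTop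
      (𝓝 (∫ x in Q d, Phi S F s x * G s x)) := by
    intro s hs
    have cGs : Continuous (G s) := (sl hG s).continuous
    refine tendsto_integral_of_dominated_convergence (fun x => B1 * |G s x|) ?_ ?_ ?_ ?_
    · intro n
      have hc : Continuous fun x => mol n (Phi S F) s x := (hsm hPh n).smooth.continuous.comp
        (by fun_prop : Continuous fun x : Fin d → ℝ => (s, x))
      exact (hc.mul cGs).aestronglyMeasurable
    · exact int_Q (continuous_const.mul cGs.abs)
    · intro n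
      refine Eventually.of_forall fun x => ?_
      rw [norm_mul]
      exact mul_le_mul_of_nonneg_right (bP n s x hs) (norm_nonneg _)
    · exact Eventually.of_forall fun x => (mol_tendsto _ cPh s x).mul_const _
  have hid : ∀ n, (∫ x in Q d, mol n (Phi S F) s2 x * G s2 x)
      - ∫ x in Q d, mol n (Phi S F) s1 x * G s1 x = ∫ z, Jn n z ∂μ := by
    intro n
    have hP2 : ContDiff ℝ 2 (U (mol n (Phi S F))) := by
      have := contDiff_infty.1 (hsm hPh n).smooth 2
      exact_mod_cast this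
    rw [time (hP2.of_le (by norm_num)) hG1 h12, integral_prod _ (iJn n)]
    refine setIntegral_congr_fun measurableSet_Ioc fun s hs => ?_
    have hs1 : 1 ≤ s := h1.trans hs.1.le
    refine slice_n hI h hG pG (hsm hPh n) (hsm hF n).smooth.continuous s (fun x => ?_)
      (fun i x => ?_)
    · exact (hM d (Phi S F) F hPh hF).1 (fun φ hφ => (hW d S F hS0 hsrc φ hφ).1) n s x (hn1 n s hs1)
    · exact (hM d (Phi S F) (Vel S F i) hPh (hVe i)).2 i
        (fun φ hφ => weak hS S F hF φ ⟨hφ.smooth, hφ.supp⟩ i) n s x (hn1 n s hs1)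
  have lim3 := (lim2 s2 (h1.trans h12)).sub (lim2 s1 h1)
  have heq := tendsto_nhds_unique (lim3.congr hid) lim1
  rw [heq, integral_prod _ iJ]
  refine setIntegral_congr_fun measurableSet_Ioc fun s hs => ?_
  refine integral_congr_ae (Eventually.of_forall fun x => ?_)
  simp only [hJ, JJ, U]
  have e1 : F s x = f (1 + T - s) x - ∑ j, b (1 + T - s) x j * Vel S F j s x := by
    rw [hFd]
    unfold RF
    congr 1
    refine Finset.sum_congr rfl fun j _ => ?_
    rw [h.ev]
    have e : 1 + T - (1 + T - s) = s := by ring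
    rw [e]
    rfl
  have e2 : ∑ i, b (1 + T - s) x i * (Vel S F i s x * G s x) =
      (∑ j, b (1 + T - s) x j * Vel S F j s x) * G s x := by
    rw [Finset.sum_mul]
    exact Finset.sum_congr rfl fun i _ => by ring
  rw [e2, e1]
  ring

end rev

theorem main (hI : S_IBP) (hS : S_STEIN) (hG' : S_MOLG) (hM : S_MOLD) (hW : S_WEQ) : S_FTEST := by
  intro d T b f u v hT h g hg pg s t hs hst htT
  set G : ℝ → (Fin d → ℝ) → ℝ := fun r => g (1 + T - r) with hGd
  have hG : ContDiff ℝ 2 (U G) := by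
    have : U G = U g ∘ fun z : ℝ × (Fin d → ℝ) => (1 + T - z.1, z.2) := rfl
    rw [this]
    exact hg.comp (by fun_prop)
  have h1 := rev hI hS hG' hM hW hT h hG (fun r => pg _) (s1 := 1 + T - t) (s2 := 1 + T - s)
    (by linarith) (by linarith)
  have hu : ∀ r x, Phi (1 + T) (RF T b f v) r x = u (1 + T - r) x := by
    intro r x
    rw [h.eu]
    have e : 1 + T - (1 + T - r) = r := by ring
    rw [e]
  have hdt : ∀ r x, dt G r x = - dt g (1 + T - r) x := by
    intro r x
    unfold dt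
    simp only [hGd]
    exact deriv_comp_const_sub (f := fun y => g y x) (1 + T) r
  simp only [hu, hdt] at h1
  simp only [hGd] at h1
  have e1 : 1 + T - (1 + T - s) = s := by ring
  have e2 : 1 + T - (1 + T - t) = t := by ring
  rw [e1, e2] at h1
  set K : ℝ → ℝ := fun r => ∫ x in Q d, (u r x * (dt g r x + (∑ i, b r x i * pd i (g r) x)
          + lap (g r) x) + f r x * g r x) with hK
  have h2 : ∀ r, ∫ x in Q d, (u (1 + T - r) x * (-dt g (1 + T - r) x - lap (g (1 + T - r)) x
      - ∑ i, b (1 + T - r) x i * pd i (g (1 + T - r)) x)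
      - f (1 + T - r) x * g (1 + T - r) x) = - K (1 + T - r) := by
    intro r
    simp only [hK]
    rw [← integral_neg]
    refine integral_congr_ae (Eventually.of_forall fun x => ?_)
    simp only
    ring
  have h3 : ∫ r in Ioc (1 + T - t) (1 + T - s), ∫ x in Q d, (u (1 + T - r) x *
      (-dt g (1 + T - r) x - lap (g (1 + T - r)) x
      - ∑ i, b (1 + T - r) x i * pd i (g (1 + T - r)) x)
      - f (1 + T - r) x * g (1 + T - r) x) = - ∫ r in Ioc s t, K r := by
    rw [setIntegral_congr_fun (g := fun r => - K (1 + T - r)) measurableSet_Ioc fun r _ => h2 r,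
      integral_neg, ← intervalIntegral.integral_of_le (by linarith),
      intervalIntegral.integral_comp_sub_left, e1, e2, intervalIntegral.integral_of_le hst]
  rw [h3] at h1
  linarith

end

end Pool.Agent.Helper70.ND.FTEST
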