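import Pool.Agent.Helper28.ND.Spec2
import Pool.Agent.Helper86.ND.WEQ
import Pool.Agent.Helper86.ND.KB
import Pool.Agent.Helper4.ND.STEIN
import Pool.Agent.Helper87.ND.MOLD

set_option autoImplicit false

open MeasureTheory Set Filter Topology
open scoped ENNReal NNReal Convolution

namespace Pool.Agent.Helper70.ND.FREG

open Pool.Agent.Helper28.ND Pool.Agent.Helper86.ND

noncomputable section

variable {d : ℕ}

instance haarE (d : ℕ) : (volume : Measure (ℝ × (Fin d → ℝ))).IsAddHaarMeasure :=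
  Pool.Agent.Helper87.ND.MOLG.haarE d

/-- Continuity of the translations of a bounded function against a finite measure with a
density. -/
theorem cont_trans (G : ℝ × (Fin d → ℝ) → ℝ) (hG : Measurable G) (B : ℝ) (hB : ∀ z, |G z| ≤ B)
    (l : Measure (ℝ × (Fin d → ℝ))) [IsFiniteMeasure l] (hl : l ≪ volume) :
    Continuous fun w => ∫ y, G (w + y) ∂l := by
  have hB0 : 0 ≤ B := (abs_nonneg _).trans (hB 0)
  set k : ℝ × (Fin d → ℝ) → ℝ := fun y => (l.rnDeriv volume y).toReal with hk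
  have hkint : Integrable k volume := Measure.integrable_toReal_rnDeriv
  have hrep : ∀ w, ∫ y, G (w + y) ∂l = ∫ y, k y * G (w + y) := by
    intro w
    have := integral_rnDeriv_smul (μ := l) (ν := volume) (f := fun y => G (w + y)) hl
    rw [← this]
    rfl
  simp_rw [hrep]
  apply continuous_of_uniform_approx_of_continuous
  intro u hu
  obtain ⟨ε, hε, hεu⟩ := Metric.mem_uniformity_dist.1 hu
  obtain ⟨g, hgc, hgε, hgcont, hgint⟩ := hkint.exists_hasCompactSupport_integral_sub_le
    (show 0 < ε / (2 * (B + 1)) by positivity)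
  refine ⟨fun w => ∫ y, g y * G (w + y), ?_, ?_⟩
  · have hGloc : LocallyIntegrable G (volume : Measure (ℝ × (Fin d → ℝ))) := by
      have h : MemLp G ⊤ (volume : Measure (ℝ × (Fin d → ℝ))) :=
        memLp_top_of_bound hG.aestronglyMeasurable B (Eventually.of_forall hB)
      exact h.locallyIntegrable le_top
    have h1 : HasCompactSupport (fun y => g (-y)) := hgc.comp_homeomorph (Homeomorph.neg _)
    have h2 := h1.continuous_convolution_left (ContinuousLinearMap.lsmul ℝ ℝ)
      (hgcont.comp continuous_neg) hGloc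
    have h3 : ((fun y => g (-y)) ⋆[ContinuousLinearMap.lsmul ℝ ℝ, volume] G) =
        fun w => ∫ y, g y * G (w + y) := by
      funext w
      rw [convolution_def]
      rw [← integral_neg_eq_self (fun y => g y * G (w + y)) volume]
      refine integral_congr_ae (Eventually.of_forall fun y => ?_)
      simp only [ContinuousLinearMap.lsmul_apply, smul_eq_mul, sub_eq_add_neg]
    rw [← h3]
    exact h2
  · intro w
    apply hεu
    have hGm : AEStronglyMeasurable (fun y => G (w + y)) volume :=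
      (hG.comp (measurable_const.add measurable_id)).aestronglyMeasurable
    have hi1 : Integrable (fun y => k y * G (w + y)) volume :=
      hkint.mul_bdd (c := B) hGm (Eventually.of_forall fun y => hB _)
    have hi2 : Integrable (fun y => g y * G (w + y)) volume :=
      hgint.mul_bdd (c := B) hGm (Eventually.of_forall fun y => hB _)
    rw [Real.dist_eq, ← integral_sub hi1 hi2, ← Real.norm_eq_abs]
    have h4 : ‖∫ y, (k y * G (w + y) - g y * G (w + y))‖ ≤ ∫ y, ‖k y - g y‖ * B := by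
      refine norm_integral_le_of_norm_le ((hkint.sub hgint).norm.mul_const B)
        (Eventually.of_forall fun y => ?_)
      rw [← sub_mul, norm_mul]
      exact mul_le_mul_of_nonneg_left (hB _) (norm_nonneg _)
    rw [integral_mul_const] at h4
    refine lt_of_le_of_lt h4 ?_
    calc (∫ y, ‖k y - g y‖) * B ≤ ε / (2 * (B + 1)) * B := by gcongr
      _ < ε := by
        rw [div_mul_eq_mul_div, div_lt_iff₀ (by positivity)]
        nlinarith

/-- The potentials are continuous. -/
theorem cont_Phi (S : ℝ) (F : ℝ → (Fin d → ℝ) → ℝ) (hF : BMP F) : Continuous (U (Phi S F)) := by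
  obtain ⟨B, hB⟩ := hF.bdd
  have h1 : U (Phi S F) = fun w => ∫ y, U F (w + y) ∂((muS d S).map mm) := by
    funext w
    rw [Phi_eq S F hF w]
    unfold Pot
    have hm : AEStronglyMeasurable (fun y : ℝ × (Fin d → ℝ) => U F (w + y))
        ((muS d S).map mm) :=
      (hF.meas.comp (measurable_const.add measurable_id)).aestronglyMeasurable
    rw [integral_map (meas_mm d).aemeasurable hm]
    simp only [one_mul]
  rw [h1]
  have h2 : (muS d S).map mm ≪ volume := by
    have h3 := (qmp d S 0).absolutelyContinuous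
    simp only [zero_add] at h3
    exact h3
  have : IsFiniteMeasure ((muS d S).map mm) := Measure.isFiniteMeasure_map _ _
  exact cont_trans (U F) hF.meas B (fun z => hB _ _) _ h2

/-- The weak derivative of the potential. -/
theorem weak (hS : S_STEIN) (S : ℝ) (F : ℝ → (Fin d → ℝ) → ℝ) (hb : BMP F)
    (f : ℝ → (Fin d → ℝ) → ℝ) (h : CS f) (i : Fin d) :
    ∫ z : ℝ × (Fin d → ℝ), U (Phi S F) z * pd i (f z.1) z.2
      = - ∫ z : ℝ × (Fin d → ℝ), U (Vel S F i) z * U f z := by
  have h1 : (fun w => U (Phi S F) w * pd i (f w.1) w.2)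
      = fun w => Pot S (fun _ => 1) F w * U (fun t x => pd i (f t) x) w := by
    funext w
    rw [Phi_eq S F hb w]
    rfl
  have h2 : (fun w => U (Vel S F i) w * U f w) = fun w => Pot S (kk i) F w * U f w := by
    funext w
    rw [Vel_eq S F hb i w]
  have hkm : Measurable (kk i : E d → ℝ) := by unfold kk; fun_prop
  rw [h1, h2, WEQ.dual S _ (one_int d S) measurable_const F hb _ (h.pd i).integrable (h.pd i).meas,
    WEQ.dual S _ (kk_int d S i) hkm F hb _ h.integrable h.meas, ← integral_neg]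
  congr 1
  funext w
  rw [WEQ.iter (h.pd i) S _ (one_int d S), WEQ.iter h S _ (kk_int d S i), ← mul_neg, ← integral_neg]
  congr 1
  refine setIntegral_congr_fun measurableSet_Ioo fun r hr => ?_
  have hr0 : 0 < Real.sqrt (2 * r) := Real.sqrt_pos.mpr (by linarith [hr.1])
  have h3 := stein hS h (w.1 - r) w.2 (Real.sqrt (2 * r)) i
  simp only [one_mul]
  have h4 : ∫ z, kk i (r, z) * f (w.1 - r) (w.2 - Real.sqrt (2 * r) • z) ∂(gam d)
      = (1 / Real.sqrt (2 * r)) * ∫ z, z i * f (w.1 - r) (w.2 - Real.sqrt (2 * r) • z) ∂(gam d) := by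
    rw [← integral_const_mul]
    congr 1
    funext z
    simp only [kk]
    ring
  have h5 : ∫ z, pd i (f (w.1 - r)) (w.2 - Real.sqrt (2 * r) • z) ∂(gam d)
      = -((1 / Real.sqrt (2 * r)) * (-Real.sqrt (2 * r) *
        ∫ z, pd i (f (w.1 - r)) (w.2 - Real.sqrt (2 * r) • z) ∂(gam d))) := by
    have h6 : (1 / Real.sqrt (2 * r)) * Real.sqrt (2 * r) = 1 := one_div_mul_cancel hr0.ne'
    rw [← mul_assoc, mul_neg, h6]
    ring
  rw [h4, h3]
  exact h5

/-- A function whose partial derivatives are bounded. -/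
theorem lip_of_pd (g : (Fin d → ℝ) → ℝ) (hg : Differentiable ℝ g) (B : ℝ) (hB0 : 0 ≤ B)
    (hB : ∀ i x, |pd i g x| ≤ B) (x y : Fin d → ℝ) : |g x - g y| ≤ (d * B) * ‖x - y‖ := by
  have h1 : ∀ z, ‖fderiv ℝ g z‖ ≤ d * B := by
    intro z
    refine ContinuousLinearMap.opNorm_le_bound _ (by positivity) fun v => ?_
    have e : v = ∑ i, v i • (Pi.single i (1 : ℝ) : Fin d → ℝ) := by
      ext j
      simp [Finset.sum_apply, Pi.single_apply]
    have e2 : fderiv ℝ g z v = ∑ i, v i * pd i g z := by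
      conv_lhs => rw [e]
      rw [map_sum]
      refine Finset.sum_congr rfl fun i _ => ?_
      rw [map_smul]
      rfl
    rw [e2]
    refine (norm_sum_le _ _).trans ?_
    calc ∑ i, ‖v i * pd i g z‖ ≤ ∑ _i : Fin d, B * ‖v‖ := by
          refine Finset.sum_le_sum fun i _ => ?_
          rw [norm_mul, mul_comm]
          exact mul_le_mul (hB i z) (norm_le_pi_norm v i) (norm_nonneg _) hB0
      _ = d * B * ‖v‖ := by simp; ring
  have h2 := Convex.norm_image_sub_le_of_norm_fderiv_le (𝕜 := ℝ) (f := g) (s := Set.univ)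
    (fun z _ => (hg z)) (fun z _ => h1 z) convex_univ (mem_univ y) (mem_univ x)
  exact h2

/-- Mollifications of continuous functions converge. -/
theorem mol_tendsto (D : ℝ → (Fin d → ℝ) → ℝ) (hD : Continuous (U D)) (t : ℝ) (x : Fin d → ℝ) :
    Tendsto (fun n => mol n D t x) atTop (𝓝 (D t x)) := by
  rw [Metric.tendsto_atTop]
  intro ε hε
  obtain ⟨δ, hδ, hδ2⟩ := Metric.continuous_iff.1 hD (t, x) (ε / 2) (by positivity)
  obtain ⟨N, hN⟩ := exists_nat_gt (1 / δ)
  refine ⟨N, fun n hn => ?_⟩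
  have h1 := (bmp d n).dist_normed_convolution_le (μ := (volume : Measure (ℝ × (Fin d → ℝ))))
    (g := U D) (x₀ := (t, x)) (ε := ε / 2) hD.aestronglyMeasurable ?_
  · have h2 : mol n D t x = ((bmp d n).normed volume
        ⋆[ContinuousLinearMap.lsmul ℝ ℝ, volume] (U D)) (t, x) := rfl
    rw [h2]
    have h3 : D t x = U D (t, x) := rfl
    rw [h3]
    linarith
  · intro z hz
    refine (hδ2 z ?_).le
    rw [Metric.mem_ball] at hz
    refine hz.trans_le ?_
    have h4 : (bmp d n).rOut = 1 / (4 * ((n : ℝ) + 1)) := rfl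
    rw [h4]
    have hn' : (N : ℝ) ≤ n := by exact_mod_cast hn
    rw [div_le_iff₀ (by positivity)]
    have h5 : 1 < N * δ := by
      rw [div_lt_iff₀ hδ] at hN
      exact hN
    nlinarith [mul_le_mul_of_nonneg_right hn' hδ.le]

theorem bmp_shift (F : ℝ → (Fin d → ℝ) → ℝ) (hF : BMP F) (c : ℝ) :
    BMP (fun t x => F (t - c) x) := by
  obtain ⟨B, hB⟩ := hF.bdd
  refine ⟨?_, fun t => hF.per (t - c), B, fun t x => hB _ _⟩
  have h1 : Measurable (fun z : ℝ × (Fin d → ℝ) => ((z.1 - c, z.2) : ℝ × (Fin d → ℝ))) := by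
    fun_prop
  exact hF.meas.comp h1

theorem phi_shift (S : ℝ) (F : ℝ → (Fin d → ℝ) → ℝ) (c t : ℝ) (x : Fin d → ℝ) :
    Phi S (fun t x => F (t - c) x) (t + c) x = Phi S F t x := by
  unfold Phi
  have : ∀ r, t + c + r - c = t + r := fun r => by ring
  simp only [this]

theorem vel_shift (S : ℝ) (F : ℝ → (Fin d → ℝ) → ℝ) (i : Fin d) (c t : ℝ) (x : Fin d → ℝ) :
    Vel S (fun t x => F (t - c) x) i (t + c) x = Vel S F i t x := by
  unfold Vel
  have : ∀ r, t + c + r - c = t + r := fun r => by ring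
  simp only [this]

/-- The potentials are Lipschitz in space. -/
theorem lip_Phi (hS : S_STEIN) (hG : S_MOLG) (hM : S_MOLD) (S : ℝ) (F : ℝ → (Fin d → ℝ) → ℝ)
    (hF : BMP F) : ∃ C : ℝ, ∀ t x y, |Phi S F t x - Phi S F t y| ≤ C * ‖x - y‖ := by
  have h1 : ∀ i, ∃ B : ℝ, 0 ≤ B ∧ ∀ t x, |Vel S F i t x| ≤ B := by
    intro i
    obtain ⟨B, hB⟩ := (KB.bmp_Vel S F hF i).bdd
    exact ⟨B, (abs_nonneg _).trans (hB 0 0), hB⟩
  choose B hB0 hB using h1
  set M : ℝ := ∑ i, B i with hMd
  have hM0 : 0 ≤ M := Finset.sum_nonneg fun i _ => hB0 i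
  have hBM : ∀ i, B i ≤ M := fun i => Finset.single_le_sum (fun i _ => hB0 i) (Finset.mem_univ i)
  refine ⟨d * M, fun t x y => ?_⟩
  set c : ℝ := 1 - t with hc
  set G : ℝ → (Fin d → ℝ) → ℝ := fun t x => F (t - c) x with hGd
  have hGb : BMP G := bmp_shift F hF c
  have hD : BMP (Phi S G) := KB.bmp_Phi S G hGb
  have hV : ∀ i, BMP (Vel S G i) := fun i => KB.bmp_Vel S G hGb i
  have hVB : ∀ i t x, |Vel S G i t x| ≤ M := by
    intro i t x
    have e : Vel S G i t x = Vel S F i (t - c) x := by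
      have := vel_shift S F i c (t - c) x
      rw [sub_add_cancel] at this
      exact this
    rw [e]
    exact (hB i _ _).trans (hBM i)
  have h2 : ∀ n : ℕ, |mol n (Phi S G) 1 x - mol n (Phi S G) 1 y| ≤ d * M * ‖x - y‖ := by
    intro n
    have hn : 1 / (4 * ((n : ℝ) + 1)) < 1 := by
      rw [div_lt_one (by positivity)]
      have : (0 : ℝ) ≤ n := Nat.cast_nonneg n
      linarith
    have hsm := (hG d (Phi S G) hD).1 n
    refine lip_of_pd (mol n (Phi S G) 1) ?_ M hM0 ?_ x y
    · have h3 : Differentiable ℝ (U (mol n (Phi S G))) := hsm.smooth.differentiable (by norm_num)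
      have h4 : Differentiable ℝ (fun x : Fin d → ℝ => ((1 : ℝ), x)) := by fun_prop
      exact h3.comp h4
    · intro i z
      have h3 := (hM d (Phi S G) (Vel S G i) hD (hV i)).2 i
        (fun f hf => weak hS S G hGb f ⟨hf.smooth, hf.supp⟩ i) n 1 z hn
      rw [h3]
      exact (hG d (Vel S G i) (hV i)).2.1 M
        (Eventually.of_forall fun w _ => hVB i _ _) n 1 z hn
  have hcont := cont_Phi S G hGb
  have h3 : Tendsto (fun n => |mol n (Phi S G) 1 x - mol n (Phi S G) 1 y|) atTop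
      (𝓝 |Phi S G 1 x - Phi S G 1 y|) :=
    ((mol_tendsto _ hcont 1 x).sub (mol_tendsto _ hcont 1 y)).abs
  have h4 := le_of_tendsto' h3 h2
  have h5 : ∀ x, Phi S G 1 x = Phi S F t x := by
    intro x
    have := phi_shift S F c t x
    have h6 : t + c = 1 := by rw [hc]; ring
    rw [h6] at this
    exact this
  rw [h5, h5] at h4
  exact h4

theorem rf_bmp {T : ℝ} {b : ℝ → (Fin d → ℝ) → (Fin d → ℝ)} {f : ℝ → (Fin d → ℝ) → ℝ}
    {u : ℝ → (Fin d → ℝ) → ℝ} {v : ℝ → (Fin d → ℝ) → (Fin d → ℝ)} (h : FSol d T b f u v) :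
    BMP (RF T b f v) := by
  obtain ⟨B, hB⟩ := h.dat.bdd
  obtain ⟨C, hC⟩ := h.bv
  have hr : Measurable (fun z : ℝ × (Fin d → ℝ) => ((1 + T - z.1, z.2) : ℝ × (Fin d → ℝ))) := by
    fun_prop
  refine ⟨?_, ?_, ?_⟩
  · have h1 : U (RF T b f v) = fun z => U f (1 + T - z.1, z.2) -
        ∑ j, (U b (1 + T - z.1, z.2)) j * (U v (1 + T - z.1, z.2)) j := rfl
    rw [h1]
    refine (h.dat.mf.comp hr).sub (Finset.measurable_fun_sum _ fun i _ => ?_)
    exact ((measurable_pi_apply i).comp (h.dat.mb.comp hr)).mul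
      ((measurable_pi_apply i).comp (h.mv.comp hr))
  · intro t x k
    unfold RF
    rw [h.dat.pf, h.dat.pb, h.pv]
  · refine ⟨B + ∑ _j : Fin d, B * C, fun t x => ?_⟩
    unfold RF
    have hB0 : 0 ≤ B := (abs_nonneg _).trans (hB 0 0).1
    refine (abs_sub _ _).trans (add_le_add (hB _ _).1 ?_)
    refine (Finset.abs_sum_le_sum_abs _ _).trans (Finset.sum_le_sum fun i _ => ?_)
    rw [abs_mul]
    exact mul_le_mul ((hB _ _).2 i) (hC _ _ i) (abs_nonneg _) hB0

theorem rf_zero {T : ℝ} {b : ℝ → (Fin d → ℝ) → (Fin d → ℝ)} {f : ℝ → (Fin d → ℝ) → ℝ}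
    {u : ℝ → (Fin d → ℝ) → ℝ} {v : ℝ → (Fin d → ℝ) → (Fin d → ℝ)} (h : FSol d T b f u v)
    {s : ℝ} (hs : s ≤ 1 ∨ 1 + T ≤ s) (x : Fin d → ℝ) : RF T b f v s x = 0 := by
  have h1 : 1 + T - s ≤ 0 ∨ T ≤ 1 + T - s := by
    rcases hs with h | h
    · right; linarith
    · left; linarith
  unfold RF
  rw [h.dat.sf _ h1]
  simp [h.dat.sb _ h1]

theorem main (hS : S_STEIN) (hG : S_MOLG) (hM : S_MOLD) : S_FREG := by
  intro d T b f u v hT h
  have hF := rf_bmp h
  have hu : ∀ t x, u t x = Phi (1 + T) (RF T b f v) (1 + T - t) x := h.eu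
  have hbP := KB.bmp_Phi (1 + T) _ hF
  refine ⟨⟨?_, ?_, ?_⟩, ?_, ?_, ?_⟩
  · have hr : Measurable (fun z : ℝ × (Fin d → ℝ) => ((1 + T - z.1, z.2) : ℝ × (Fin d → ℝ))) := by
      fun_prop
    have : U u = fun z => U (Phi (1 + T) (RF T b f v)) (1 + T - z.1, z.2) :=
      funext fun z => hu z.1 z.2
    rw [this]
    exact hbP.meas.comp hr
  · intro t x k
    rw [hu, hu]
    exact hbP.per _ x k
  · obtain ⟨B, hB⟩ := hbP.bdd
    exact ⟨B, fun t x => by rw [hu]; exact hB _ _⟩
  · intro t ht x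
    rw [hu]
    unfold Phi
    have h0 : ∀ r ∈ Ioo 0 (1 + T), (∫ z, RF T b f v (1 + T - t + r)
        (x + Real.sqrt (2 * r) • z) ∂(gam d)) = 0 := by
      intro r hr
      have h1 : ∀ y, RF T b f v (1 + T - t + r) y = 0 := fun y =>
        rf_zero h (Or.inr (by linarith [hr.1])) y
      simp only [h1, integral_zero]
    rw [setIntegral_congr_fun measurableSet_Ioo h0, integral_zero]
  · obtain ⟨C, hC⟩ := lip_Phi hS hG hM (1 + T) _ hF
    exact ⟨C, fun t x y => by rw [hu, hu]; exact hC _ _ _⟩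
  · intro x
    have h1 := cont_Phi (1 + T) _ hF
    have h2 : (fun t => u t x) = fun t => U (Phi (1 + T) (RF T b f v)) (1 + T - t, x) :=
      funext fun t => hu t x
    rw [h2]
    exact h1.comp (by fun_prop)

end

end Pool.Agent.Helper70.ND.FREG
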